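import Pool.Agent.TXT.Words

set_option autoImplicit false

/-!
# The product of two 4-regular trees (Cayley graph of the product of two free groups)
-/

namespace Pool.Agent.TXT

open Finset FreeGroup

/-- The vertices: pairs of elements of the free group on two generators. -/
abbrev VV := FreeGroup (Fin 2) × FreeGroup (Fin 2)

theorem mk_inv (s : Ltr) : (mk [s])⁻¹ = mk [(s.1, !s.2)] := by
  simp [inv_mk, invRev]

theorem mk_ne_one (s : Ltr) : (mk [s] : FreeGroup (Fin 2)) ≠ 1 := by
  intro h
  have := congrArg toWord h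
  rw [toWord_mk, toWord_one, reduce_singleton] at this
  simp at this

/-- The product of two 4-regular trees: one letter is multiplied from the left to one component. -/
def TT : SimpleGraph VV where
  Adj u v := ∃ s : Ltr, (v.1 = mk [s] * u.1 ∧ v.2 = u.2) ∨ (v.1 = u.1 ∧ v.2 = mk [s] * u.2)
  symm := ⟨by
    rintro u v ⟨s, h | h⟩
    · refine ⟨(s.1, !s.2), Or.inl ⟨?_, h.2.symm⟩⟩
      rw [h.1, ← mk_inv, inv_mul_cancel_left]
    · refine ⟨(s.1, !s.2), Or.inr ⟨h.1.symm, ?_⟩⟩
      rw [h.2, ← mk_inv, inv_mul_cancel_left]⟩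
  loopless := ⟨by
    rintro u ⟨s, h | h⟩
    · exact mk_ne_one s (by simpa using h.1)
    · exact mk_ne_one s (by simpa using h.2)⟩

/-- The vertex with the words `x`, `y` relative to the centre `v`. -/
def io (v : VV) (x y : List Ltr) : VV := (mk x * v.1, mk y * v.2)

/-- The length of `w` relative to `v`. -/
def hh (v w : VV) : ℕ := norm (w.1 * v.1⁻¹) + norm (w.2 * v.2⁻¹)

theorem io_words (v w : VV) : io v (toWord (w.1 * v.1⁻¹)) (toWord (w.2 * v.2⁻¹)) = w := by
  simp [io, mk_toWord]

theorem adj_x (v : VV) (s : Ltr) (x y : List Ltr) : TT.Adj (io v x y) (io v (s :: x) y) := by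
  refine ⟨s, Or.inl ⟨?_, rfl⟩⟩
  show mk (s :: x) * v.1 = mk [s] * (mk x * v.1)
  rw [← mul_assoc, mul_mk]
  rfl

theorem adj_y (v : VV) (s : Ltr) (x y : List Ltr) : TT.Adj (io v x y) (io v x (s :: y)) := by
  refine ⟨s, Or.inr ⟨rfl, ?_⟩⟩
  show mk (s :: y) * v.2 = mk [s] * (mk y * v.2)
  rw [← mul_assoc, mul_mk]
  rfl

theorem walk_exists (v : VV) (x y : List Ltr) :
    ∃ p : TT.Walk v (io v x y), p.length = x.length + y.length := by
  induction x with
  | nil =>
    induction y with
    | nil =>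
      have : io v [] [] = v := by
        simp [io, ← one_eq_mk]
      rw [this]
      exact ⟨SimpleGraph.Walk.nil, rfl⟩
    | cons s y ih =>
      obtain ⟨p, hp⟩ := ih
      refine ⟨p.concat (adj_y v s [] y), ?_⟩
      rw [SimpleGraph.Walk.length_concat, hp]
      simp
  | cons s x ih =>
    obtain ⟨p, hp⟩ := ih
    refine ⟨p.concat (adj_x v s x y), ?_⟩
    rw [SimpleGraph.Walk.length_concat, hp]
    simp
    omega

theorem connected : TT.Connected := by
  have : Nonempty VV := ⟨(1, 1)⟩
  refine ⟨fun v w => ?_⟩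
  obtain ⟨p, _⟩ := walk_exists v (toWord (w.1 * v.1⁻¹)) (toWord (w.2 * v.2⁻¹))
  rw [io_words] at p
  exact ⟨p⟩

theorem dist_le (v w : VV) : TT.dist v w ≤ hh v w := by
  obtain ⟨p, hp⟩ := walk_exists v (toWord (w.1 * v.1⁻¹)) (toWord (w.2 * v.2⁻¹))
  have h := SimpleGraph.dist_le p
  rw [hp, io_words] at h
  exact h

theorem hh_adj (v u w : VV) (h : TT.Adj u w) : hh v w ≤ hh v u + 1 := by
  obtain ⟨s, h | h⟩ := h
  · have h1 : w.1 * v.1⁻¹ = mk [s] * (u.1 * v.1⁻¹) := by rw [h.1, mul_assoc]
    have h2 := norm_mul_le (mk [s]) (u.1 * v.1⁻¹)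
    have h3 : norm (mk [s] : FreeGroup (Fin 2)) ≤ 1 := norm_mk_le
    rw [hh, hh, h.2, h1]
    omega
  · have h1 : w.2 * v.2⁻¹ = mk [s] * (u.2 * v.2⁻¹) := by rw [h.2, mul_assoc]
    have h2 := norm_mul_le (mk [s]) (u.2 * v.2⁻¹)
    have h3 : norm (mk [s] : FreeGroup (Fin 2)) ≤ 1 := norm_mk_le
    rw [hh, hh, h.1, h1]
    omega

theorem hh_walk (v : VV) {u w : VV} (p : TT.Walk u w) : hh v w ≤ hh v u + p.length := by
  induction p with
  | nil => simp
  | cons h p ih =>
    have := hh_adj v _ _ h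
    rw [SimpleGraph.Walk.length_cons]
    omega

theorem dist_eq (v w : VV) : TT.dist v w = hh v w := by
  refine le_antisymm (dist_le v w) ?_
  obtain ⟨p, hp⟩ := connected.exists_walk_length_eq_dist v w
  have h := hh_walk v p
  have h0 : hh v v = 0 := by simp [hh]
  omega

theorem infinite_VV : Infinite VV := by
  have : Infinite (FreeGroup (Fin 2)) :=
    Infinite.of_surjective (norm : FreeGroup (Fin 2) → ℕ) norm_surjective
  infer_instance

theorem degree (v : VV) : (TT.neighborSet v).encard ≤ ((8 : ℕ) : ℕ∞) := by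
  let φ : Bool × Ltr → VV := fun q =>
    if q.1 then (mk [q.2] * v.1, v.2) else (v.1, mk [q.2] * v.2)
  have h1 : TT.neighborSet v ⊆ Set.range φ := by
    rintro w ⟨s, h | h⟩
    · exact ⟨(true, s), by simp only [φ, if_true]; exact Prod.ext h.1.symm h.2.symm⟩
    · exact ⟨(false, s), by
        simp only [φ, Bool.false_eq_true, if_false]
        exact Prod.ext h.1.symm h.2.symm⟩
  refine (Set.encard_le_encard h1).trans ?_
  rw [← Set.image_univ]
  refine (Set.encard_image_le _ _).trans ?_
  rw [Set.encard_univ]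
  simp

theorem mem_Rw {n : ℕ} {L : List Ltr} : L ∈ Rw n ↔ L.length = n ∧ IsReduced L := by
  induction n generalizing L with
  | zero =>
    simp only [Rw, mem_singleton]
    constructor
    · rintro rfl
      exact ⟨rfl, IsReduced.nil⟩
    · rintro ⟨h, _⟩
      simpa using h
  | succ n ih =>
    rw [Rw, mem_biUnion]
    constructor
    · rintro ⟨M, hM, h⟩
      rw [mem_image] at h
      obtain ⟨s, hs, rfl⟩ := h
      obtain ⟨h1, h2⟩ := ih.1 hM
      refine ⟨by simp [h1], ?_⟩
      cases M with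
      | nil => exact IsReduced.singleton
      | cons t M =>
        rw [isReduced_cons_cons]
        refine ⟨?_, h2⟩
        rw [Al, mem_filter] at hs
        exact hs.2 t (by simp)
    · rintro ⟨h1, h2⟩
      cases L with
      | nil => simp at h1
      | cons s M =>
        refine ⟨M, ih.2 ⟨by simpa using h1, ?_⟩, ?_⟩
        · cases M with
          | nil => exact IsReduced.nil
          | cons t M =>
            rw [isReduced_cons_cons] at h2
            exact h2.2
        · refine mem_image.2 ⟨s, ?_, rfl⟩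
          rw [Al, mem_filter]
          refine ⟨mem_univ _, fun t ht => ?_⟩
          cases M with
          | nil => simp at ht
          | cons a M =>
            rw [isReduced_cons_cons] at h2
            simp at ht
            subst ht
            exact h2.1

theorem words_io {v : VV} {x y : List Ltr} (hx : IsReduced x) (hy : IsReduced y) :
    toWord ((io v x y).1 * v.1⁻¹) = x ∧ toWord ((io v x y).2 * v.2⁻¹) = y := by
  constructor
  · show toWord (mk x * v.1 * v.1⁻¹) = x
    rw [mul_inv_cancel_right, toWord_mk, hx.reduce_eq]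
  · show toWord (mk y * v.2 * v.2⁻¹) = y
    rw [mul_inv_cancel_right, toWord_mk, hy.reduce_eq]

theorem dist_io {v : VV} {x y : List Ltr} (hx : IsReduced x) (hy : IsReduced y) :
    TT.dist v (io v x y) = x.length + y.length := by
  obtain ⟨h1, h2⟩ := words_io (v := v) hx hy
  rw [dist_eq, hh, FreeGroup.norm, FreeGroup.norm, h1, h2]

/-- The pairs of reduced words of total length at most `r`. -/
def Bw (r : ℕ) : Finset (List Ltr × List Ltr) :=
  (range (r + 1)).biUnion fun l => (antidiagonal l).biUnion fun p => Rw p.1 ×ˢ Rw p.2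

theorem mem_Bw {r : ℕ} {q : List Ltr × List Ltr} :
    q ∈ Bw r ↔ q.1.length + q.2.length ≤ r ∧ IsReduced q.1 ∧ IsReduced q.2 := by
  simp only [Bw, mem_biUnion, mem_range, mem_product, HasAntidiagonal.mem_antidiagonal, mem_Rw]
  constructor
  · rintro ⟨l, hl, p, hp, ⟨h1, h2⟩, h3, h4⟩
    exact ⟨by omega, h2, h4⟩
  · rintro ⟨h1, h2, h3⟩
    exact ⟨q.1.length + q.2.length, by omega, (q.1.length, q.2.length), rfl, ⟨rfl, h2⟩, rfl, h3⟩

theorem sum_Bw (r : ℕ) (g : List Ltr → List Ltr → ℝ) :
    ∑ q ∈ Bw r, g q.1 q.2 = ∑ l ∈ range (r + 1), Sk l g := by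
  rw [Bw, sum_biUnion]
  · refine sum_congr rfl fun l _ => ?_
    rw [sum_biUnion]
    · refine sum_congr rfl fun p _ => ?_
      rw [sum_product]
      rfl
    · intro p _ p' _ hpp
      rw [Function.onFun, disjoint_left]
      intro q h1 h2
      rw [mem_product, mem_Rw, mem_Rw] at h1 h2
      exact hpp (Prod.ext (h1.1.1.symm.trans h2.1.1) (h1.2.1.symm.trans h2.2.1))
  · intro l _ l' _ hll
    rw [Function.onFun, disjoint_left]
    intro q h1 h2
    simp only [mem_biUnion, mem_product, HasAntidiagonal.mem_antidiagonal, mem_Rw] at h1 h2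
    obtain ⟨p, hp, h3, h4⟩ := h1
    obtain ⟨p', hp', h5, h6⟩ := h2
    apply hll
    rw [← hp, ← hp', ← h3.1, ← h4.1, ← h5.1, ← h6.1]

theorem count (v : VV) (r : ℕ) (P : VV → Prop) [DecidablePred P]
    (hP : ∀ w, P w → TT.dist v w ≤ r) :
    (({w : VV | P w}.ncard : ℕ) : ℝ) =
      ∑ l ∈ range (r + 1), Sk l (fun x y => if P (io v x y) then 1 else 0) := by
  rw [← sum_Bw]
  have h1 : {w : VV | P w} =
      (fun q : List Ltr × List Ltr => io v q.1 q.2) '' ((Bw r).filter fun q => P (io v q.1 q.2)) := by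
    ext w
    constructor
    · intro hw
      have hw' : P w := hw
      refine ⟨(toWord (w.1 * v.1⁻¹), toWord (w.2 * v.2⁻¹)), ?_, io_words v w⟩
      rw [mem_coe, mem_filter]
      refine ⟨mem_Bw.2 ⟨?_, isReduced_toWord, isReduced_toWord⟩, ?_⟩
      · have := hP w hw'
        rw [dist_eq] at this
        exact this
      · show P (io v (toWord (w.1 * v.1⁻¹)) (toWord (w.2 * v.2⁻¹)))
        rw [io_words]
        exact hw'
    · rintro ⟨q, hq, rfl⟩
      rw [mem_coe, mem_filter] at hq
      exact hq.2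
  rw [h1, Set.InjOn.ncard_image, Set.ncard_coe_finset, card_filter]
  · push_cast
    rfl
  · intro q hq q' hq' hqq
    rw [mem_coe, mem_filter, mem_Bw] at hq hq'
    have e : io v q.1 q.2 = io v q'.1 q'.2 := hqq
    have h2 := words_io (v := v) hq.1.2.1 hq.1.2.2
    have h3 := words_io (v := v) hq'.1.2.1 hq'.1.2.2
    rw [e] at h2
    exact Prod.ext (h2.1.symm.trans h3.1) (h2.2.symm.trans h3.2)

theorem Sk_add (k : ℕ) (g h : List Ltr → List Ltr → ℝ) :
    Sk k (fun x y => g x y + h x y) = Sk k g + Sk k h := by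
  simp only [Sk, SS_add, sum_add_distrib]

theorem Sk_mul (k : ℕ) (c : ℝ) (g : List Ltr → List Ltr → ℝ) :
    Sk k (fun x y => c * g x y) = c * Sk k g := by
  simp only [Sk, SS_mul, mul_sum]

theorem card_Rw_ge (i : ℕ) : (3 : ℝ) ^ i ≤ ((Rw i).card : ℝ) := by
  induction i with
  | zero => simp [Rw]
  | succ i ih =>
    have h1 : ((Rw (i + 1)).card : ℝ) = ∑ L ∈ Rw (i + 1), (1 : ℝ) := by simp
    rw [h1, sum_Rw_succ]
    have h2 : ∑ L ∈ Rw i, (3 : ℝ) ≤ ∑ L ∈ Rw i, ∑ s ∈ Al L, (1 : ℝ) := by
      refine sum_le_sum fun L _ => ?_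
      have := three_le L
      simpa using this
    refine le_trans ?_ h2
    rw [sum_const, nsmul_eq_mul, pow_succ]
    linarith

/-- The balls of radius `r` have at least `3 ^ r` elements. -/
theorem three_pow_le (v : VV) (r : ℕ) :
    (3 : ℝ) ^ r ≤ (({w : VV | TT.dist v w ≤ r}.ncard : ℕ) : ℝ) := by
  classical
  rw [count v r (fun w => TT.dist v w ≤ r) (fun w hw => hw)]
  set g : List Ltr → List Ltr → ℝ := fun x y => if TT.dist v (io v x y) ≤ r then 1 else 0 with hg
  have hg0 : ∀ x y, 0 ≤ g x y := fun x y => by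
    simp only [hg]
    split_ifs <;> norm_num
  have h1 : Sk r g ≤ ∑ l ∈ range (r + 1), Sk l g :=
    single_le_sum (f := fun l => Sk l g) (fun l _ => Sk_nonneg hg0) (mem_range.2 (by omega))
  have h2 : SS 0 r g ≤ Sk r g :=
    single_le_sum (f := fun p : ℕ × ℕ => SS p.1 p.2 g) (fun p _ => SS_nonneg hg0)
      (HasAntidiagonal.mem_antidiagonal.2 (by simp) : ((0, r) : ℕ × ℕ) ∈ antidiagonal r)
  have h3 : SS 0 r g = ((Rw r).card : ℝ) := by
    rw [SS, sum_Rw_zero]
    have h4 : ∀ y ∈ Rw r, g [] y = 1 := by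
      intro y hy
      have a2 := mem_Rw.1 hy
      simp only [hg]
      rw [if_pos]
      rw [dist_io IsReduced.nil a2.2]
      simp [a2.1]
    rw [sum_congr rfl h4]
    simp
  have h5 := card_Rw_ge r
  linarith

/-- The isoperimetric inequality in the balls of the product of two 4-regular trees. -/
theorem tree_main (v : VV) (r : ℕ) (S : Finset VV) (hS : ∀ w ∈ S, TT.dist v w ≤ r)
    (hne : 0 < S.card) (hhalf : 2 * S.card ≤ {w : VV | TT.dist v w ≤ r}.ncard) :
    (S.card : ℝ) ≤ 65 * (r + 1) *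
      (({w : VV | TT.dist v w ≤ r ∧ w ∉ S ∧ ∃ s ∈ S, TT.Adj s w}.ncard : ℕ) : ℝ) := by
  classical
  set B : ℝ := (({w : VV | TT.dist v w ≤ r}.ncard : ℕ) : ℝ) with hB
  have cB := count v r (fun w => TT.dist v w ≤ r) (fun w hw => hw)
  have cS := count v r (fun w => w ∈ S) (fun w hw => hS w hw)
  have cD := count v r (fun w => TT.dist v w ≤ r ∧ w ∉ S ∧ ∃ s ∈ S, TT.Adj s w)
    (fun w hw => hw.1)
  have eS : {w : VV | w ∈ S}.ncard = S.card := by
    rw [show {w : VV | w ∈ S} = (S : Set VV) from rfl, Set.ncard_coe_finset]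
  rw [eS] at cS
  cases r with
  | zero =>
    exfalso
    have h1 : {w : VV | TT.dist v w ≤ 0} = {v} := by
      ext w
      simp only [Set.mem_ofPred_eq, Nat.le_zero, Set.mem_singleton_iff]
      rw [connected.dist_eq_zero_iff]
      exact eq_comm
    rw [h1, Set.ncard_singleton] at hhalf
    omega
  | succ k =>
    set f : List Ltr → List Ltr → ℝ := fun x y => if io v x y ∈ S then 1 else 0 with hf
    set b : List Ltr → List Ltr → ℝ := fun x y =>
      if (TT.dist v (io v x y) ≤ k + 1 ∧ io v x y ∉ S ∧ ∃ s ∈ S, TT.Adj s (io v x y)) then 1 else 0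
      with hb
    have hb0 : ∀ x y, 0 ≤ b x y := fun x y => by
      simp only [hb]
      split_ifs <;> norm_num
    have key : ∀ x y x' y' : List Ltr, TT.Adj (io v x y) (io v x' y') →
        TT.dist v (io v x y) ≤ k + 1 → TT.dist v (io v x' y') ≤ k + 1 →
        |f x' y' - f x y| ≤ b x' y' + b x y := by
      intro x y x' y' hadj h1 h2
      have n1 := hb0 x y
      have n2 := hb0 x' y'
      by_cases c1 : io v x y ∈ S <;> by_cases c2 : io v x' y' ∈ S
      · simp only [hf, c1, c2, if_true, sub_self, abs_zero]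
        linarith
      · have : b x' y' = 1 := by
          simp only [hb]
          rw [if_pos ⟨h2, c2, _, c1, hadj⟩]
        simp only [hf, c1, c2, if_true, if_false]
        rw [this]
        norm_num
        linarith
      · have : b x y = 1 := by
          simp only [hb]
          rw [if_pos ⟨h1, c1, _, c2, hadj.symm⟩]
        simp only [hf, c1, c2, if_true, if_false]
        rw [this]
        norm_num
        linarith
      · simp only [hf, c1, c2, if_false, sub_self, abs_zero]
        linarith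
    have red : ∀ {n : ℕ} {x : List Ltr} {s : Ltr}, x ∈ Rw n → s ∈ Al x → s :: x ∈ Rw (n + 1) := by
      intro n x s hx hs
      show s :: x ∈ (Rw n).biUnion fun L => (Al L).image fun s => s :: L
      exact mem_biUnion.2 ⟨x, hx, mem_image.2 ⟨s, hs, rfl⟩⟩
    obtain ⟨m, hm⟩ := words_main f b hb0 k
      (fun i j hij x hx y hy s hs => by
        have a1 := mem_Rw.1 hx
        have a2 := mem_Rw.1 hy
        have a3 := mem_Rw.1 (red hx hs)
        refine key x y (s :: x) y (adj_x v s x y) ?_ ?_
        · rw [dist_io a1.2 a2.2]; omega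
        · rw [dist_io a3.2 a2.2]; omega)
      (fun i j hij x hx y hy s hs => by
        have a1 := mem_Rw.1 hx
        have a2 := mem_Rw.1 hy
        have a3 := mem_Rw.1 (red hy hs)
        refine key x y x (s :: y) (adj_y v s x y) ?_ ?_
        · rw [dist_io a1.2 a2.2]; omega
        · rw [dist_io a1.2 a3.2]; omega)
    have e1 : ∑ l ∈ range (k + 2), Sk l (fun x y => |f x y - m|) =
        |1 - m| * S.card + |m| * (B - S.card) := by
      have h1 : ∀ l ∈ range (k + 2), Sk l (fun x y => |f x y - m|) =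
          |1 - m| * Sk l f + |m| * (Sk l (fun x y => if TT.dist v (io v x y) ≤ k + 1 then 1 else 0)
            - Sk l f) := by
        intro l hl
        have hl' : l < k + 2 := mem_range.1 hl
        have h2 : Sk l (fun x y => |f x y - m|) = Sk l (fun x y => |1 - m| * f x y + |m| *
            ((if TT.dist v (io v x y) ≤ k + 1 then 1 else 0) + (-1) * f x y)) := by
          simp only [Sk, SS]
          refine sum_congr rfl fun p hp => sum_congr rfl fun x hx => sum_congr rfl fun y hy => ?_
          have hp' := HasAntidiagonal.mem_antidiagonal.1 hp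
          have a1 := mem_Rw.1 hx
          have a2 := mem_Rw.1 hy
          have h3 : TT.dist v (io v x y) ≤ k + 1 := by
            rw [dist_io a1.2 a2.2]; omega
          rw [if_pos h3]
          by_cases c : io v x y ∈ S
          · simp [hf, c]
          · simp [hf, c]
        rw [h2, Sk_add, Sk_mul, Sk_mul, Sk_add, Sk_mul]
        ring
      rw [sum_congr rfl h1, sum_add_distrib, ← mul_sum, ← mul_sum, sum_sub_distrib, ← cS, ← cB]
    rw [e1] at hm
    have e2 : ∑ l ∈ range (k + 2), Sk l b =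
        (({w : VV | TT.dist v w ≤ k + 1 ∧ w ∉ S ∧ ∃ s ∈ S, TT.Adj s w}.ncard : ℕ) : ℝ) := cD.symm
    rw [e2] at hm
    have h3 : (2 : ℝ) * S.card ≤ B := by
      rw [hB]
      exact_mod_cast hhalf
    have h4 : (S.card : ℝ) ≤ |1 - m| * S.card + |m| * (B - S.card) := by
      have h5 : (1 : ℝ) ≤ |1 - m| + |m| := by
        have := abs_add_le (1 - m) m
        rw [sub_add_cancel, abs_one] at this
        exact this
      have h6 : (0 : ℝ) ≤ S.card := Nat.cast_nonneg _
      have h7 : |m| * (S.card : ℝ) ≤ |m| * (B - S.card) :=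
        mul_le_mul_of_nonneg_left (by linarith) (abs_nonneg m)
      nlinarith
    refine h4.trans (hm.trans (le_of_eq ?_))
    push_cast
    ring

/-- The balls are expanders up to the logarithm of their size. -/
theorem tree_log (v : VV) (r : ℕ) (S : Finset VV) (hS : ∀ w ∈ S, TT.dist v w ≤ r)
    (hne : 0 < S.card) (hhalf : 2 * S.card ≤ {w : VV | TT.dist v w ≤ r}.ncard) :
    (1 / 131 : ℝ) / Real.log (({w : VV | TT.dist v w ≤ r}.ncard : ℕ) : ℝ) * (S.card : ℝ) <
      (({w : VV | TT.dist v w ≤ r ∧ w ∉ S ∧ ∃ s ∈ S, TT.Adj s w}.ncard : ℕ) : ℝ) := by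
  have hm := tree_main v r S hS hne hhalf
  set N : ℝ := (({w : VV | TT.dist v w ≤ r ∧ w ∉ S ∧ ∃ s ∈ S, TT.Adj s w}.ncard : ℕ) : ℝ) with hN
  have hS1 : (1 : ℝ) ≤ S.card := by exact_mod_cast hne
  have hr0 : (0 : ℝ) ≤ r := Nat.cast_nonneg r
  have hN0 : 0 < N := by
    by_contra hcon
    push Not at hcon
    have : 65 * ((r : ℝ) + 1) * N ≤ 0 := mul_nonpos_of_nonneg_of_nonpos (by positivity) hcon
    linarith
  have hr : 1 ≤ r := by
    by_contra hcon
    have hr : r = 0 := by omega
    subst hr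
    have h1 : {w : VV | TT.dist v w ≤ 0} = {v} := by
      ext w
      simp only [Set.mem_ofPred_eq, Nat.le_zero, Set.mem_singleton_iff]
      rw [connected.dist_eq_zero_iff]
      exact eq_comm
    rw [h1, Set.ncard_singleton] at hhalf
    omega
  have hr1 : (1 : ℝ) ≤ r := by exact_mod_cast hr
  have h3 := three_pow_le v r
  set B : ℝ := (({w : VV | TT.dist v w ≤ r}.ncard : ℕ) : ℝ) with hB
  have hl3 : (1 : ℝ) ≤ Real.log 3 := by
    rw [Real.le_log_iff_exp_le (by norm_num)]
    linarith [Real.exp_one_lt_d9]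
  have hl : (r : ℝ) ≤ Real.log B := by
    have h4 : Real.log ((3 : ℝ) ^ r) ≤ Real.log B := Real.log_le_log (by positivity) h3
    rw [Real.log_pow] at h4
    nlinarith
  have hl0 : 0 < Real.log B := by linarith
  rw [div_mul_eq_mul_div, div_lt_iff₀ hl0]
  have h5 : 65 * ((r : ℝ) + 1) * N ≤ 130 * (N * Real.log B) := by
    have : ((r : ℝ) + 1) * N ≤ 2 * (N * Real.log B) := by nlinarith
    linarith
  have h6 : 0 < N * Real.log B := mul_pos hN0 hl0
  linarith

end Pool.Agent.TXT
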