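import Mathlib

set_option autoImplicit false

/-!
# Words in two stacks: the inequality behind the Cheeger constants of the balls of a product of trees
-/

namespace Pool.Agent.TXT

open Finset

/-- Letters of the free group on two generators. -/
abbrev Ltr := Fin 2 × Bool

/-- The letters which may be pushed on the word `L` (all but the inverse of the first letter). -/
def Al (L : List Ltr) : Finset Ltr :=
  univ.filter fun s => ∀ t ∈ L.head?, s.1 = t.1 → s.2 = t.2

/-- The reduced words of length `n`. -/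
def Rw : ℕ → Finset (List Ltr)
  | 0 => {[]}
  | n + 1 => (Rw n).biUnion fun L => (Al L).image fun s => s :: L

theorem card_Al_nil : (Al []).card = 4 := by decide

theorem card_Al_cons (t : Ltr) (L : List Ltr) : (Al (t :: L)).card = 3 := by
  have : Al (t :: L) = univ.filter fun s : Ltr => s.1 = t.1 → s.2 = t.2 := by
    ext s
    simp [Al]
  rw [this]
  clear this
  revert t
  decide

theorem three_le (L : List Ltr) : (3 : ℝ) ≤ ((Al L).card : ℝ) := by
  cases L with
  | nil => rw [card_Al_nil]; norm_num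
  | cons t L => rw [card_Al_cons]; norm_num

theorem le_four (L : List Ltr) : ((Al L).card : ℝ) ≤ 4 := by
  cases L with
  | nil => rw [card_Al_nil]; norm_num
  | cons t L => rw [card_Al_cons]; norm_num

theorem sum_Rw_zero (F : List Ltr → ℝ) : ∑ L ∈ Rw 0, F L = F [] := by
  simp [Rw]

theorem sum_Rw_succ (n : ℕ) (F : List Ltr → ℝ) :
    ∑ L ∈ Rw (n + 1), F L = ∑ L ∈ Rw n, ∑ s ∈ Al L, F (s :: L) := by
  show ∑ L ∈ (Rw n).biUnion (fun L => (Al L).image fun s => s :: L), F L = _
  rw [sum_biUnion]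
  · refine sum_congr rfl fun L _ => ?_
    rw [sum_image]
    intro a _ b _ h
    simpa using h
  · intro L _ M _ hLM
    rw [Function.onFun, disjoint_left]
    intro K h1 h2
    rw [mem_image] at h1 h2
    obtain ⟨a, _, rfl⟩ := h1
    obtain ⟨b, _, h⟩ := h2
    exact hLM (by simpa using (List.cons.inj h).2.symm)

theorem length_Rw {n : ℕ} {L : List Ltr} (h : L ∈ Rw n) : L.length = n := by
  induction n generalizing L with
  | zero => simpa [Rw] using h
  | succ n ih =>
    rw [Rw, mem_biUnion] at h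
    obtain ⟨M, hM, h⟩ := h
    rw [mem_image] at h
    obtain ⟨s, _, rfl⟩ := h
    simp [ih hM]

/-- Average over the letters which can be pushed. -/
noncomputable def Q (F : List Ltr → ℝ) (L : List Ltr) : ℝ :=
  (∑ s ∈ Al L, F (s :: L)) / ((Al L).card : ℝ)

theorem Q_mono {F G : List Ltr → ℝ} (h : ∀ L, F L ≤ G L) (L : List Ltr) : Q F L ≤ Q G L := by
  unfold Q
  have := three_le L
  exact div_le_div_of_nonneg_right (sum_le_sum fun s _ => h _) (by linarith)

theorem Q_const (c : ℝ) (L : List Ltr) : Q (fun _ => c) L = c := by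
  unfold Q
  have := three_le L
  rw [sum_const, nsmul_eq_mul]
  field_simp

theorem Q_sub (F G : List Ltr → ℝ) (L : List Ltr) : Q (fun M => F M - G M) L = Q F L - Q G L := by
  unfold Q
  rw [sum_sub_distrib, sub_div]

theorem Q_add (F G : List Ltr → ℝ) (L : List Ltr) : Q (fun M => F M + G M) L = Q F L + Q G L := by
  unfold Q
  rw [sum_add_distrib, add_div]

theorem abs_Q_le (F : List Ltr → ℝ) (L : List Ltr) : |Q F L| ≤ Q (fun M => |F M|) L := by
  unfold Q
  have := three_le L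
  rw [abs_div, abs_of_nonneg (by linarith : (0 : ℝ) ≤ ((Al L).card : ℝ))]
  exact div_le_div_of_nonneg_right (abs_sum_le_sum_abs _ _) (by linarith)

theorem Q_le_third {F : List Ltr → ℝ} (hF : ∀ L, 0 ≤ F L) (L : List Ltr) :
    Q F L ≤ (1 / 3) * ∑ s ∈ Al L, F (s :: L) := by
  unfold Q
  have h3 := three_le L
  have h0 : 0 ≤ ∑ s ∈ Al L, F (s :: L) := sum_nonneg fun s _ => hF _
  rw [div_le_iff₀ (by linarith)]
  nlinarith

/-- Sum over the pairs of reduced words of lengths `i`, `j`. -/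
noncomputable def SS (i j : ℕ) (g : List Ltr → List Ltr → ℝ) : ℝ :=
  ∑ x ∈ Rw i, ∑ y ∈ Rw j, g x y

theorem SS_mono {i j : ℕ} {g h : List Ltr → List Ltr → ℝ} (H : ∀ x y, g x y ≤ h x y) :
    SS i j g ≤ SS i j h :=
  sum_le_sum fun x _ => sum_le_sum fun y _ => H x y

theorem SS_mono' {i j : ℕ} {g h : List Ltr → List Ltr → ℝ}
    (H : ∀ x ∈ Rw i, ∀ y ∈ Rw j, g x y ≤ h x y) : SS i j g ≤ SS i j h :=
  sum_le_sum fun x hx => sum_le_sum fun y hy => H x hx y hy

theorem SS_nonneg {i j : ℕ} {g : List Ltr → List Ltr → ℝ} (H : ∀ x y, 0 ≤ g x y) :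
    0 ≤ SS i j g :=
  sum_nonneg fun x _ => sum_nonneg fun y _ => H x y

theorem SS_add (i j : ℕ) (g h : List Ltr → List Ltr → ℝ) :
    SS i j (fun x y => g x y + h x y) = SS i j g + SS i j h := by
  simp [SS, sum_add_distrib]

theorem SS_mul (i j : ℕ) (c : ℝ) (g : List Ltr → List Ltr → ℝ) :
    SS i j (fun x y => c * g x y) = c * SS i j g := by
  simp [SS, mul_sum]

theorem SS_comm (i j : ℕ) (g : List Ltr → List Ltr → ℝ) :
    SS i j g = SS j i (fun x y => g y x) := by
  simp only [SS]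
  exact sum_comm

theorem SS_succ_left (i j : ℕ) (g : List Ltr → List Ltr → ℝ) :
    SS (i + 1) j g = SS i j (fun x y => ∑ s ∈ Al x, g (s :: x) y) := by
  simp only [SS]
  rw [sum_Rw_succ]
  refine sum_congr rfl fun x _ => ?_
  exact sum_comm

theorem SS_succ_right (i j : ℕ) (g : List Ltr → List Ltr → ℝ) :
    SS i (j + 1) g = SS i j (fun x y => ∑ s ∈ Al y, g x (s :: y)) := by
  simp only [SS]
  refine sum_congr rfl fun x _ => ?_
  rw [sum_Rw_succ]

/-- Change of `f` along the edges which push a letter on the first word. -/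
noncomputable def EX (f : List Ltr → List Ltr → ℝ) (i j : ℕ) : ℝ :=
  SS i j (fun x y => ∑ s ∈ Al x, |f (s :: x) y - f x y|)

/-- Change of `f` along the edges which push a letter on the second word. -/
noncomputable def EY (f : List Ltr → List Ltr → ℝ) (i j : ℕ) : ℝ :=
  SS i j (fun x y => ∑ s ∈ Al y, |f x (s :: y) - f x y|)

theorem EX_nonneg (f : List Ltr → List Ltr → ℝ) (i j : ℕ) : 0 ≤ EX f i j :=
  SS_nonneg fun _ _ => sum_nonneg fun _ _ => abs_nonneg _

theorem EY_nonneg (f : List Ltr → List Ltr → ℝ) (i j : ℕ) : 0 ≤ EY f i j :=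
  SS_nonneg fun _ _ => sum_nonneg fun _ _ => abs_nonneg _

/-- `phi f i y`: the average of `f [] (z ++ y)` over random pushes `z` of `i` letters. -/
noncomputable def phi (f : List Ltr → List Ltr → ℝ) : ℕ → List Ltr → ℝ
  | 0 => fun y => f [] y
  | i + 1 => Q (phi f i)

/-- distance of `f` to `phi` on the pairs of lengths `i`, `j`. -/
noncomputable def dev (f : List Ltr → List Ltr → ℝ) (i j : ℕ) : ℝ :=
  SS i j (fun x y => |f x y - phi f i y|)

theorem dev_zero (f : List Ltr → List Ltr → ℝ) (j : ℕ) : dev f 0 j = 0 := by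
  simp [dev, SS, Rw, phi]

theorem step_point (f : List Ltr → List Ltr → ℝ) (i : ℕ) (a : Ltr) (x y : List Ltr) :
    |f (a :: x) y - phi f (i + 1) y| ≤
      |f (a :: x) y - f x y| + Q (fun M => |f x M - f x y|) y +
        Q (fun M => |f x M - phi f i M|) y := by
  have h1 : f (a :: x) y - phi f (i + 1) y =
      (f (a :: x) y - f x y) + (Q (fun M => f x y - f x M) y + Q (fun M => f x M - phi f i M) y) := by
    rw [Q_sub, Q_sub, Q_const]
    show _ = _ + (_ - _ + (_ - Q (phi f i) y))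
    show f (a :: x) y - Q (phi f i) y = _
    ring
  rw [h1]
  have h2 := abs_add_le (f (a :: x) y - f x y)
    (Q (fun M => f x y - f x M) y + Q (fun M => f x M - phi f i M) y)
  have h3 := abs_add_le (Q (fun M => f x y - f x M) y) (Q (fun M => f x M - phi f i M) y)
  have h4 := abs_Q_le (fun M => f x y - f x M) y
  have h5 := abs_Q_le (fun M => f x M - phi f i M) y
  have h6 : Q (fun M => |f x y - f x M|) y = Q (fun M => |f x M - f x y|) y := by
    simp only [abs_sub_comm]
  linarith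

theorem dev_succ (f : List Ltr → List Ltr → ℝ) (i j : ℕ) :
    dev f (i + 1) j ≤ EX f i j + (4 / 3) * EY f i j + dev f i (j + 1) := by
  have key : ∀ x ∈ Rw i, ∀ y ∈ Rw j,
      (∑ a ∈ Al x, |f (a :: x) y - phi f (i + 1) y|) ≤
        (∑ a ∈ Al x, |f (a :: x) y - f x y|) + (4 / 3) * (∑ s ∈ Al y, |f x (s :: y) - f x y|) +
          (∑ s ∈ Al y, |f x (s :: y) - phi f i (s :: y)|) := by
    intro x hx y _
    have h1 : (∑ a ∈ Al x, |f (a :: x) y - phi f (i + 1) y|) ≤
        ∑ a ∈ Al x, (|f (a :: x) y - f x y| + Q (fun M => |f x M - f x y|) y +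
          Q (fun M => |f x M - phi f i M|) y) := sum_le_sum fun a _ => step_point f i a x y
    rw [sum_add_distrib, sum_add_distrib, sum_const, sum_const, nsmul_eq_mul, nsmul_eq_mul] at h1
    have h2 := Q_le_third (F := fun M => |f x M - f x y|) (fun _ => abs_nonneg _) y
    have h3 := Q_le_third (F := fun M => |f x M - phi f i M|) (fun _ => abs_nonneg _) y
    have h4 := le_four x
    have h5 : (0 : ℝ) ≤ ∑ s ∈ Al y, |f x (s :: y) - f x y| := sum_nonneg fun _ _ => abs_nonneg _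
    have h6 : (0 : ℝ) ≤ ∑ s ∈ Al y, |f x (s :: y) - phi f i (s :: y)| :=
      sum_nonneg fun _ _ => abs_nonneg _
    have h7 : (0 : ℝ) ≤ Q (fun M => |f x M - f x y|) y :=
      div_nonneg (sum_nonneg fun _ _ => abs_nonneg _) (Nat.cast_nonneg _)
    have h8 : ((Al x).card : ℝ) * Q (fun M => |f x M - f x y|) y ≤
        (4 / 3) * ∑ s ∈ Al y, |f x (s :: y) - f x y| := by
      have := mul_le_mul_of_nonneg_right h4 h7
      have h2' : Q (fun M => |f x M - f x y|) y ≤ (1 / 3) * ∑ s ∈ Al y, |f x (s :: y) - f x y| := h2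
      linarith
    have h9 : ((Al x).card : ℝ) * Q (fun M => |f x M - phi f i M|) y ≤
        ∑ s ∈ Al y, |f x (s :: y) - phi f i (s :: y)| := by
      cases x with
      | nil =>
        have hi : i = 0 := by simpa using (length_Rw hx).symm
        subst hi
        have : Q (fun M => |f [] M - phi f 0 M|) y = 0 := by
          simp [phi, Q]
        rw [this]
        simpa using h6
      | cons t x =>
        rw [card_Al_cons]
        have h3' : Q (fun M => |f (t :: x) M - phi f i M|) y ≤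
          (1 / 3) * ∑ s ∈ Al y, |f (t :: x) (s :: y) - phi f i (s :: y)| := h3
        push_cast
        linarith
    linarith
  calc dev f (i + 1) j = SS i j (fun x y => ∑ a ∈ Al x, |f (a :: x) y - phi f (i + 1) y|) := by
        rw [dev, SS_succ_left]
    _ ≤ SS i j (fun x y => (∑ a ∈ Al x, |f (a :: x) y - f x y|) +
          (4 / 3) * (∑ s ∈ Al y, |f x (s :: y) - f x y|) +
          (∑ s ∈ Al y, |f x (s :: y) - phi f i (s :: y)|)) := SS_mono' key
    _ = EX f i j + (4 / 3) * EY f i j + dev f i (j + 1) := by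
        rw [SS_add, SS_add, SS_mul, dev, SS_succ_right]
        rfl

/-- Change of `f` along the edges between the pairs of total length `k` and `k + 1`. -/
noncomputable def Ek (f : List Ltr → List Ltr → ℝ) (k : ℕ) : ℝ :=
  ∑ p ∈ antidiagonal k, (EX f p.1 p.2 + EY f p.1 p.2)

theorem Ek_nonneg (f : List Ltr → List Ltr → ℝ) (k : ℕ) : 0 ≤ Ek f k :=
  sum_nonneg fun _ _ => add_nonneg (EX_nonneg _ _ _) (EY_nonneg _ _ _)

theorem dev_le_sum (f : List Ltr → List Ltr → ℝ) (i j : ℕ) :
    dev f i j ≤ (4 / 3) * ∑ l ∈ range i, (EX f l (i + j - 1 - l) + EY f l (i + j - 1 - l)) := by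
  induction i generalizing j with
  | zero => simp [dev_zero]
  | succ i ih =>
    have h1 := dev_succ f i j
    have h2 := ih (j + 1)
    rw [sum_range_succ]
    have e1 : i + 1 + j - 1 - i = j := by omega
    have e2 : ∀ l, i + (j + 1) - 1 - l = i + 1 + j - 1 - l := fun l => by omega
    simp only [e2] at h2
    rw [e1]
    have h3 := EX_nonneg f i j
    linarith

theorem dev_le (f : List Ltr → List Ltr → ℝ) (k : ℕ) (i j : ℕ) (h : i + j = k + 1) :
    dev f i j ≤ (4 / 3) * Ek f k := by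
  refine (dev_le_sum f i j).trans ?_
  refine mul_le_mul_of_nonneg_left ?_ (by norm_num)
  have e : i + j - 1 = k := by omega
  rw [e]
  have h1 : ∑ l ∈ range i, (EX f l (k - l) + EY f l (k - l)) ≤
      ∑ l ∈ range (k + 1), (EX f l (k - l) + EY f l (k - l)) := by
    refine sum_le_sum_of_subset_of_nonneg (range_subset_range.2 (by omega)) fun l _ _ => ?_
    exact add_nonneg (EX_nonneg _ _ _) (EY_nonneg _ _ _)
  refine h1.trans (le_of_eq ?_)
  rw [Ek, Nat.sum_antidiagonal_eq_sum_range_succ (fun a b => EX f a b + EY f a b)]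

/-- The function with the two words exchanged. -/
def fl (f : List Ltr → List Ltr → ℝ) : List Ltr → List Ltr → ℝ := fun x y => f y x

theorem EX_fl (f : List Ltr → List Ltr → ℝ) (i j : ℕ) : EX (fl f) i j = EY f j i := by
  rw [EX, EY, SS_comm]
  rfl

theorem EY_fl (f : List Ltr → List Ltr → ℝ) (i j : ℕ) : EY (fl f) i j = EX f j i := by
  rw [EX, EY, SS_comm]
  rfl

theorem Ek_fl (f : List Ltr → List Ltr → ℝ) (k : ℕ) : Ek (fl f) k = Ek f k := by
  rw [Ek, Ek, ← Finset.sum_equiv (Equiv.prodComm ℕ ℕ) (s := antidiagonal k) (t := antidiagonal k)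
    (f := fun p => EX f p.2 p.1 + EY f p.2 p.1) (g := fun p => EX f p.1 p.2 + EY f p.1 p.2)]
  · refine sum_congr rfl fun p _ => ?_
    rw [EX_fl, EY_fl]
    ring
  · intro p
    simp [HasAntidiagonal.mem_antidiagonal, add_comm]
  · intro p _
    rfl

/-- The constant to which `f` is compared. -/
noncomputable def mm (f : List Ltr → List Ltr → ℝ) (k : ℕ) : ℝ := phi (fl f) (k + 1) []

theorem hub (f : List Ltr → List Ltr → ℝ) (k : ℕ) :
    ∑ Y ∈ Rw (k + 1), |f [] Y - mm f k| ≤ (4 / 3) * Ek f k := by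
  have h := dev_le (fl f) k (k + 1) 0 rfl
  rw [Ek_fl] at h
  refine le_trans (le_of_eq ?_) h
  rw [dev, SS]
  refine sum_congr rfl fun Y _ => ?_
  rw [sum_Rw_zero]
  rfl

theorem card_Rw_le (i : ℕ) : ((Rw i).card : ℝ) ≤ (4 / 3) * 3 ^ i := by
  have h : ∀ i : ℕ, ((Rw (i + 1)).card : ℝ) = 4 * 3 ^ i := by
    intro i
    have h1 : ∀ n, ((Rw n).card : ℝ) = ∑ L ∈ Rw n, (1 : ℝ) := fun n => by simp
    induction i with
    | zero =>
      rw [h1, sum_Rw_succ, sum_Rw_zero]
      simp [card_Al_nil]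
    | succ i ih =>
      rw [h1, sum_Rw_succ]
      have : ∀ L ∈ Rw (i + 1), ∑ s ∈ Al L, (1 : ℝ) = 3 := by
        intro L hL
        have hl := length_Rw hL
        cases L with
        | nil => simp at hl
        | cons t L => simp [card_Al_cons]
      rw [sum_congr rfl this, sum_const, nsmul_eq_mul, ih]
      ring
  cases i with
  | zero => simp [Rw]; norm_num
  | succ i => rw [h i, pow_succ]; linarith

theorem phi_close (f : List Ltr → List Ltr → ℝ) (m : ℝ) (i j : ℕ) :
    3 ^ i * ∑ y ∈ Rw j, |phi f i y - m| ≤ ∑ Y ∈ Rw (i + j), |f [] Y - m| := by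
  induction i generalizing j with
  | zero => simp [phi]
  | succ i ih =>
    have h1 : ∀ y, |phi f (i + 1) y - m| ≤ (1 / 3) * ∑ s ∈ Al y, |phi f i (s :: y) - m| := by
      intro y
      have e : phi f (i + 1) y - m = Q (fun M => phi f i M - m) y := by
        rw [Q_sub, Q_const]
        rfl
      rw [e]
      exact (abs_Q_le _ _).trans (Q_le_third (fun _ => abs_nonneg _) y)
    have h2 : ∑ y ∈ Rw j, |phi f (i + 1) y - m| ≤ (1 / 3) * ∑ y ∈ Rw (j + 1), |phi f i y - m| := by
      rw [sum_Rw_succ, mul_sum]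
      exact sum_le_sum fun y _ => h1 y
    have h3 := ih (j + 1)
    have e : i + (j + 1) = i + 1 + j := by ring
    rw [e] at h3
    refine le_trans ?_ h3
    rw [pow_succ]
    have h4 : (0 : ℝ) < 3 ^ i := by positivity
    nlinarith [mul_le_mul_of_nonneg_left h2 h4.le]

/-- Every class of pairs of total length `k + 1` is close to the constant `mm f k`. -/
theorem class_close (f : List Ltr → List Ltr → ℝ) (k i j : ℕ) (h : i + j = k + 1) :
    SS i j (fun x y => |f x y - mm f k|) ≤ 4 * Ek f k := by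
  have h1 : SS i j (fun x y => |f x y - mm f k|) ≤
      dev f i j + SS i j (fun _ y => |phi f i y - mm f k|) := by
    rw [dev, ← SS_add]
    refine SS_mono fun x y => ?_
    have := abs_add_le (f x y - phi f i y) (phi f i y - mm f k)
    rwa [sub_add_sub_cancel] at this
  have h2 := dev_le f k i j h
  have h3 : SS i j (fun _ y => |phi f i y - mm f k|) ≤ (16 / 9) * Ek f k := by
    have h4 := phi_close f (mm f k) i j
    rw [h] at h4
    have h5 := hub f k
    have h6 := card_Rw_le i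
    have h7 : SS i j (fun _ y => |phi f i y - mm f k|) =
        ((Rw i).card : ℝ) * ∑ y ∈ Rw j, |phi f i y - mm f k| := by
      simp [SS]
    rw [h7]
    have h8 : (0 : ℝ) ≤ ∑ y ∈ Rw j, |phi f i y - mm f k| := sum_nonneg fun _ _ => abs_nonneg _
    have h9 := mul_le_mul_of_nonneg_right h6 h8
    linarith
  have h10 := Ek_nonneg f k
  linarith

/-- Sum over the pairs of total length `k`. -/
noncomputable def Sk (k : ℕ) (g : List Ltr → List Ltr → ℝ) : ℝ :=
  ∑ p ∈ antidiagonal k, SS p.1 p.2 g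

theorem Sk_nonneg {k : ℕ} {g : List Ltr → List Ltr → ℝ} (H : ∀ x y, 0 ≤ g x y) : 0 ≤ Sk k g :=
  sum_nonneg fun _ _ => SS_nonneg H

theorem Sk_succ (k : ℕ) (g : List Ltr → List Ltr → ℝ) :
    Sk (k + 1) g = SS (k + 1) 0 g + ∑ p ∈ antidiagonal k, SS p.1 (p.2 + 1) g := by
  rw [Sk, Nat.sum_antidiagonal_succ', add_comm]

theorem Sk_succ' (k : ℕ) (g : List Ltr → List Ltr → ℝ) :
    Sk (k + 1) g = SS 0 (k + 1) g + ∑ p ∈ antidiagonal k, SS (p.1 + 1) p.2 g := by
  rw [Sk, Nat.sum_antidiagonal_succ]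

theorem top_sphere (f : List Ltr → List Ltr → ℝ) (k : ℕ) :
    Sk (k + 1) (fun x y => |f x y - mm f k|) ≤ 4 * (k + 2) * Ek f k := by
  have h : Sk (k + 1) (fun x y => |f x y - mm f k|) ≤ ∑ p ∈ antidiagonal (k + 1), 4 * Ek f k :=
    sum_le_sum fun p hp => class_close f k p.1 p.2 (HasAntidiagonal.mem_antidiagonal.1 hp)
  rw [sum_const, Nat.card_antidiagonal, nsmul_eq_mul] at h
  refine h.trans (le_of_eq ?_)
  push_cast
  ring

theorem lower_sphere (f : List Ltr → List Ltr → ℝ) (m : ℝ) (k : ℕ) :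
    Sk k (fun x y => |f x y - m|) ≤
      (1 / 3) * Ek f k + (1 / 3) * Sk (k + 1) (fun x y => |f x y - m|) := by
  have h1 : ∀ i j : ℕ, SS i j (fun x y => |f x y - m|) ≤
      (1 / 3) * EY f i j + (1 / 3) * SS i (j + 1) (fun x y => |f x y - m|) := by
    intro i j
    rw [EY, SS_succ_right, ← SS_mul, ← SS_mul, ← SS_add]
    refine SS_mono fun x y => ?_
    have e : f x y - m = Q (fun M => f x y - f x M) y + Q (fun M => f x M - m) y := by
      rw [Q_sub, Q_sub, Q_const, Q_const]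
      ring
    rw [e]
    have h2 := abs_add_le (Q (fun M => f x y - f x M) y) (Q (fun M => f x M - m) y)
    have h3 := (abs_Q_le (fun M => f x y - f x M) y).trans
      (Q_le_third (fun _ => abs_nonneg _) y)
    have h4 := (abs_Q_le (fun M => f x M - m) y).trans
      (Q_le_third (fun _ => abs_nonneg _) y)
    simp only [abs_sub_comm (f x y)] at h3
    linarith
  have h2 : Sk k (fun x y => |f x y - m|) ≤ ∑ p ∈ antidiagonal k,
      ((1 / 3) * (EX f p.1 p.2 + EY f p.1 p.2) +
        (1 / 3) * SS p.1 (p.2 + 1) (fun x y => |f x y - m|)) :=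
    sum_le_sum fun p _ => by
      have := h1 p.1 p.2
      have := EX_nonneg f p.1 p.2
      linarith
  rw [sum_add_distrib, ← mul_sum, ← mul_sum] at h2
  have h3 := Sk_succ k (fun x y => |f x y - m|)
  have h4 : 0 ≤ SS (k + 1) 0 (fun x y => |f x y - m|) := SS_nonneg fun _ _ => abs_nonneg _
  have h5 : Ek f k = ∑ p ∈ antidiagonal k, (EX f p.1 p.2 + EY f p.1 p.2) := rfl
  linarith

/-- The sum over the whole ball of radius `k + 1`. -/
theorem ball_close (f : List Ltr → List Ltr → ℝ) (k : ℕ) :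
    ∑ l ∈ range (k + 2), Sk l (fun x y => |f x y - mm f k|) ≤
      (13 / 2) * (k + 2) * ∑ l ∈ range (k + 1), Ek f l := by
  set a : ℕ → ℝ := fun l => Sk l (fun x y => |f x y - mm f k|) with ha
  have ha0 : ∀ l, 0 ≤ a l := fun l => Sk_nonneg fun _ _ => abs_nonneg _
  have h1 := top_sphere f k
  have h2 : ∑ l ∈ range (k + 1), a l ≤
      (1 / 3) * ∑ l ∈ range (k + 1), Ek f l + (1 / 3) * ∑ l ∈ range (k + 1), a (l + 1) := by
    rw [mul_sum, mul_sum, ← sum_add_distrib]
    exact sum_le_sum fun l _ => lower_sphere f (mm f k) l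
  have h3 : ∑ l ∈ range (k + 2), a l = ∑ l ∈ range (k + 1), a l + a (k + 1) := sum_range_succ _ _
  have h4 : ∑ l ∈ range (k + 2), a l = ∑ l ∈ range (k + 1), a (l + 1) + a 0 := sum_range_succ' _ _
  have h5 : Ek f k ≤ ∑ l ∈ range (k + 1), Ek f l :=
    single_le_sum (f := fun l => Ek f l) (fun l _ => Ek_nonneg f l) (by simp)
  have h6 := ha0 0
  have hE : 0 ≤ ∑ l ∈ range (k + 1), Ek f l := sum_nonneg fun l _ => Ek_nonneg f l
  have hk : (0 : ℝ) ≤ k := Nat.cast_nonneg k
  have h7 : a (k + 1) ≤ 4 * (k + 2) * ∑ l ∈ range (k + 1), Ek f l :=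
    h1.trans (mul_le_mul_of_nonneg_left h5 (by positivity))
  have h8 : ∑ l ∈ range (k + 1), Ek f l ≤ (k + 2) * ∑ l ∈ range (k + 1), Ek f l := by
    nlinarith
  have h9 : (2 / 3) * ∑ l ∈ range (k + 2), a l ≤
      a (k + 1) + (1 / 3) * ∑ l ∈ range (k + 1), Ek f l := by
    linarith
  nlinarith

/-- Bound of the changes of `f` by a function `b` on the vertices. -/
theorem edges_le (f b : List Ltr → List Ltr → ℝ) (hb0 : ∀ x y, 0 ≤ b x y) (k : ℕ)
    (hx : ∀ i j, i + j ≤ k → ∀ x ∈ Rw i, ∀ y ∈ Rw j, ∀ s ∈ Al x,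
      |f (s :: x) y - f x y| ≤ b (s :: x) y + b x y)
    (hy : ∀ i j, i + j ≤ k → ∀ x ∈ Rw i, ∀ y ∈ Rw j, ∀ s ∈ Al y,
      |f x (s :: y) - f x y| ≤ b x (s :: y) + b x y) :
    ∑ l ∈ range (k + 1), Ek f l ≤ 10 * ∑ l ∈ range (k + 2), Sk l b := by
  have hX : ∀ i j, i + j ≤ k → EX f i j ≤ SS (i + 1) j b + 4 * SS i j b := by
    intro i j hij
    rw [EX, SS_succ_left, ← SS_mul, ← SS_add]
    refine SS_mono' fun x hx1 y hy1 => ?_
    have h1 : ∑ s ∈ Al x, |f (s :: x) y - f x y| ≤ ∑ s ∈ Al x, (b (s :: x) y + b x y) :=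
      sum_le_sum fun s hs => hx i j hij x hx1 y hy1 s hs
    rw [sum_add_distrib, sum_const, nsmul_eq_mul] at h1
    have h2 := mul_le_mul_of_nonneg_right (le_four x) (hb0 x y)
    linarith
  have hY : ∀ i j, i + j ≤ k → EY f i j ≤ SS i (j + 1) b + 4 * SS i j b := by
    intro i j hij
    rw [EY, SS_succ_right, ← SS_mul, ← SS_add]
    refine SS_mono' fun x hx1 y hy1 => ?_
    have h1 : ∑ s ∈ Al y, |f x (s :: y) - f x y| ≤ ∑ s ∈ Al y, (b x (s :: y) + b x y) :=
      sum_le_sum fun s hs => hy i j hij x hx1 y hy1 s hs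
    rw [sum_add_distrib, sum_const, nsmul_eq_mul] at h1
    have h2 := mul_le_mul_of_nonneg_right (le_four y) (hb0 x y)
    linarith
  have hE : ∀ l ∈ range (k + 1), Ek f l ≤ 2 * Sk (l + 1) b + 8 * Sk l b := by
    intro l hl
    have hl' : l ≤ k := by simpa [Nat.lt_succ_iff] using hl
    have h1 : Ek f l ≤ ∑ p ∈ antidiagonal l, ((SS (p.1 + 1) p.2 b + SS p.1 (p.2 + 1) b) +
        8 * SS p.1 p.2 b) := by
      refine sum_le_sum fun p hp => ?_
      have hp' := HasAntidiagonal.mem_antidiagonal.1 hp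
      have := hX p.1 p.2 (by omega)
      have := hY p.1 p.2 (by omega)
      linarith
    rw [sum_add_distrib, sum_add_distrib, ← mul_sum] at h1
    have h2 := Sk_succ l b
    have h3 := Sk_succ' l b
    have h4 : 0 ≤ SS (l + 1) 0 b := SS_nonneg hb0
    have h5 : 0 ≤ SS 0 (l + 1) b := SS_nonneg hb0
    have h6 : Sk l b = ∑ p ∈ antidiagonal l, SS p.1 p.2 b := rfl
    linarith
  have h1 := sum_le_sum hE
  rw [sum_add_distrib, ← mul_sum, ← mul_sum] at h1
  have h2 : ∑ l ∈ range (k + 2), Sk l b = ∑ l ∈ range (k + 1), Sk (l + 1) b + Sk 0 b :=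
    sum_range_succ' _ _
  have h3 : ∑ l ∈ range (k + 2), Sk l b = ∑ l ∈ range (k + 1), Sk l b + Sk (k + 1) b :=
    sum_range_succ _ _
  have h4 : 0 ≤ Sk 0 b := Sk_nonneg hb0
  have h5 : 0 ≤ Sk (k + 1) b := Sk_nonneg hb0
  linarith

theorem words_main (f b : List Ltr → List Ltr → ℝ) (hb0 : ∀ x y, 0 ≤ b x y) (k : ℕ)
    (hx : ∀ i j, i + j ≤ k → ∀ x ∈ Rw i, ∀ y ∈ Rw j, ∀ s ∈ Al x,
      |f (s :: x) y - f x y| ≤ b (s :: x) y + b x y)
    (hy : ∀ i j, i + j ≤ k → ∀ x ∈ Rw i, ∀ y ∈ Rw j, ∀ s ∈ Al y,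
      |f x (s :: y) - f x y| ≤ b x (s :: y) + b x y) :
    ∃ m : ℝ, ∑ l ∈ range (k + 2), Sk l (fun x y => |f x y - m|) ≤
      65 * (k + 2) * ∑ l ∈ range (k + 2), Sk l b := by
  refine ⟨mm f k, (ball_close f k).trans ?_⟩
  have h := edges_le f b hb0 k hx hy
  have hk : (0 : ℝ) ≤ k := Nat.cast_nonneg k
  have := mul_le_mul_of_nonneg_left h (by positivity : (0 : ℝ) ≤ (13 / 2) * (k + 2))
  refine this.trans (le_of_eq ?_)
  ring

end Pool.Agent.TXT
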